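import Pool.Agent.W188.MZ.Stm2

set_option autoImplicit false

/-!
# MZ-AVN: approximation of the moments by the values on `N` lines (helper148)
-/

open Complex MeasureTheory Set Filter Topology

namespace Pool.Agent.W148.MZ

open Pool.Agent.W188.QS Pool.Agent.W188.GP Pool.Agent.W188.MZ

lemma ZZ_cont : Continuous ZZ := by
  unfold ZZ
  refine continuous_norm.comp ?_
  rw [continuous_iff_continuousAt]
  intro t
  have hne : cp t ≠ 1 := by
    intro h
    have := congrArg Complex.re h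
    simp [cp] at this
    try norm_num at this
  have h1 : ContinuousAt riemannZeta (cp t) := (differentiableAt_riemannZeta hne).continuousAt
  have h2 : Continuous cp := by
    unfold cp
    fun_prop
  exact ContinuousAt.comp h1 h2.continuousAt

lemma ZZ_nonneg (t : ℝ) : 0 ≤ ZZ t := norm_nonneg _

lemma ZZp_cont (p : ℝ) (hp : 0 < p) : Continuous (fun t => ZZ t ^ p) :=
  ZZ_cont.rpow_const (fun _ => Or.inr hp.le)

lemma int_nonneg (p a b : ℝ) (hab : a ≤ b) : 0 ≤ ∫ t in a..b, ZZ t ^ p :=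
  intervalIntegral.integral_nonneg hab (fun t _ => Real.rpow_nonneg (ZZ_nonneg t) p)

lemma DD_per (p a b : ℝ) : Function.Periodic (fun γ => DD p γ a b) 1 := by
  intro γ
  show DD p (γ + 1) a b = DD p γ a b
  unfold DD nd
  refine Finset.sum_nbij' (fun n => n + 1) (fun n => n - 1) ?_ ?_ ?_ ?_ ?_
  · intro n hn
    rw [Finset.mem_Ioc] at hn ⊢
    have e1 : vv a - (γ + 1) = vv a - γ - 1 := by ring
    have e2 : vv b - (γ + 1) = vv b - γ - 1 := by ring
    rw [e1, e2, Int.floor_sub_one, Int.floor_sub_one] at hn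
    constructor <;> linarith [hn.1, hn.2]
  · intro n hn
    rw [Finset.mem_Ioc] at hn ⊢
    have e1 : vv a - (γ + 1) = vv a - γ - 1 := by ring
    have e2 : vv b - (γ + 1) = vv b - γ - 1 := by ring
    rw [e1, e2, Int.floor_sub_one, Int.floor_sub_one]
    constructor <;> linarith [hn.1, hn.2]
  · intro n _; ring
  · intro n _; ring
  · intro n _
    have : ((n : ℝ) + (γ + 1)) = (((n + 1 : ℤ) : ℝ) + γ) := by push_cast; ring
    rw [this]

/-- increments of the phase -/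
lemma vv_inc (h3 : StTau) {x y : ℝ} (hxy : x ≤ y) : (y - x) / (2 * Real.pi) ≤ vv y - vv x := by
  obtain ⟨_, hc, _, hl, hd, _⟩ := h3
  have hmono : Monotone (fun t => vv t - t / (2 * Real.pi)) := by
    refine monotone_of_deriv_nonneg ?_ ?_
    · intro t
      exact ((hd t).differentiableAt).sub (differentiableAt_id.div_const _)
    · intro t
      have h : HasDerivAt (fun t => vv t - t / (2 * Real.pi)) (lamE t / (2 * Real.pi) - 1 / (2 * Real.pi)) t :=
        (hd t).sub ((hasDerivAt_id t).div_const _)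
      rw [h.deriv, ← sub_div]
      have := hl t
      have hpi := Real.pi_pos
      exact div_nonneg (by linarith) (by linarith)
  have h := hmono hxy
  simp only at h
  have e : (y - x) / (2 * Real.pi) = y / (2 * Real.pi) - x / (2 * Real.pi) := by ring
  linarith

/-- one node near the point `x` -/
lemma edge (h3 : StTau) {p γ γ' x L : ℝ} {n : ℤ} (hL : 4 ≤ L) (hγ : γ' ≤ γ + 1)
    (h1 : tau (n + γ) ≤ x) (h2 : x < tau (n + γ')) :
    ZZ (tau (n + γ')) ^ p ≤ DD p γ' (x - 2 * L) (x + 2 * L) := by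
  have hinc := vv_inc h3 (x := x) (y := x + 2 * L) (by linarith)
  obtain ⟨hvm, _, _, _, _, htv, hvt, htm, _, _, _, _, hnd⟩ := h3
  have hpi := Real.pi_pos
  have hpi4 := Real.pi_le_four
  have h1' : (n : ℝ) + γ ≤ vv x := by
    have := hvm.monotone h1
    rwa [hvt] at this
  have h3' : 1 ≤ vv (x + 2 * L) - vv x := by
    refine le_trans ?_ hinc
    rw [le_div_iff₀ (by positivity)]
    linarith
  have h4 : (n : ℝ) + γ' ≤ vv (x + 2 * L) := by linarith
  have h5 : tau (n + γ') ≤ x + 2 * L := by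
    have := htm.monotone h4
    rwa [htv] at this
  have hmem : n ∈ nd γ' (x - 2 * L) (x + 2 * L) := by
    rw [hnd]
    exact ⟨by linarith, h5⟩
  unfold DD
  exact Finset.single_le_sum (f := fun n : ℤ => ZZ (tau (n + γ')) ^ p)
    (fun i _ => Real.rpow_nonneg (ZZ_nonneg _) p) hmem

/-- sum over a set with at most one element -/
lemma sum_le_of_unique {S : Finset ℤ} {F : ℤ → ℝ} {B : ℝ} (hB : 0 ≤ B) (h : ∀ n ∈ S, F n ≤ B)
    (hu : ∀ n ∈ S, ∀ m ∈ S, n = m) : ∑ n ∈ S, F n ≤ B := by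
  rcases S.eq_empty_or_nonempty with h0 | ⟨n, hn⟩
  · rw [h0]; simpa using hB
  · have : S = {n} := by
      ext m
      rw [Finset.mem_singleton]
      exact ⟨fun hm => hu m hm n hn, fun e => e ▸ hn⟩
    rw [this, Finset.sum_singleton]
    exact h n hn

lemma uniq (h3 : StTau) {γ γ' x : ℝ} {n m : ℤ} (hγ : γ' ≤ γ + 1)
    (h1 : tau (n + γ) ≤ x) (h2 : x < tau (n + γ')) (h1' : tau (m + γ) ≤ x) (h2' : x < tau (m + γ')) : n = m := by
  obtain ⟨hvm, _, _, _, _, htv, hvt, htm, _, _, _, _, hnd⟩ := h3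
  have a1 : (n : ℝ) + γ ≤ vv x := by
    have := hvm.monotone h1
    rwa [hvt] at this
  have a2 : vv x < (n : ℝ) + γ' := by
    have := hvm h2
    rwa [hvt] at this
  have b1 : (m : ℝ) + γ ≤ vv x := by
    have := hvm.monotone h1'
    rwa [hvt] at this
  have b2 : vv x < (m : ℝ) + γ' := by
    have := hvm h2'
    rwa [hvt] at this
  have c1 : (n : ℝ) < m + 1 := by linarith
  have c2 : (m : ℝ) < n + 1 := by linarith
  have d1 : n < m + 1 := by exact_mod_cast c1
  have d2 : m < n + 1 := by exact_mod_cast c2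
  omega

/-- change of the phase, with the change of the index set -/
lemma osc (h3 : StTau) {p γ γ' a b L : ℝ} (hL : 4 ≤ L) (hab : a ≤ b) (hγ : γ ≤ γ') (hγ' : γ' ≤ γ + 1) :
    |DD p γ' a b - DD p γ a b| ≤ (∑ n ∈ nd γ a b, |ZZ (tau (n + γ')) ^ p - ZZ (tau (n + γ)) ^ p|) +
      DD p γ' (a - 2 * L) (a + 2 * L) + DD p γ' (b - 2 * L) (b + 2 * L) := by
  classical
  have h3s := h3
  obtain ⟨hvm, _, _, _, _, htv, hvt, htm, _, _, _, _, hnd⟩ := h3
  set F : ℤ → ℝ := fun n => ZZ (tau (n + γ)) ^ p with hF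
  set F' : ℤ → ℝ := fun n => ZZ (tau (n + γ')) ^ p with hF'
  have hF'0 : ∀ n, 0 ≤ F' n := fun n => Real.rpow_nonneg (ZZ_nonneg _) p
  have hDD0 : ∀ u v : ℝ, 0 ≤ DD p γ' u v := fun u v => Finset.sum_nonneg (fun n _ => hF'0 n)
  have e1 : DD p γ a b = ∑ n ∈ nd γ a b, F n := rfl
  have e2 : DD p γ' a b = ∑ n ∈ nd γ' a b, F' n := rfl
  have hsub : (∑ n ∈ nd γ' a b, F' n) - ∑ n ∈ nd γ a b, F' n =
      (∑ n ∈ nd γ' a b \ nd γ a b, F' n) - ∑ n ∈ nd γ a b \ nd γ' a b, F' n := by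
    exact (Finset.sum_sdiff_sub_sum_sdiff).symm
  have hA : ∑ n ∈ nd γ' a b \ nd γ a b, F' n ≤ DD p γ' (a - 2 * L) (a + 2 * L) := by
    have key : ∀ n ∈ nd γ' a b \ nd γ a b, tau (n + γ) ≤ a ∧ a < tau (n + γ') := by
      intro n hn
      rw [Finset.mem_sdiff, hnd, hnd] at hn
      refine ⟨?_, hn.1.1⟩
      by_contra hcon
      push Not at hcon
      refine hn.2 ⟨hcon, ?_⟩
      exact le_trans (htm.monotone (by linarith)) hn.1.2
    refine sum_le_of_unique (hDD0 _ _) ?_ ?_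
    · intro n hn
      exact edge h3s hL hγ' (key n hn).1 (key n hn).2
    · intro n hn m hm
      exact uniq h3s hγ' (key n hn).1 (key n hn).2 (key m hm).1 (key m hm).2
  have hB : ∑ n ∈ nd γ a b \ nd γ' a b, F' n ≤ DD p γ' (b - 2 * L) (b + 2 * L) := by
    have key : ∀ n ∈ nd γ a b \ nd γ' a b, tau (n + γ) ≤ b ∧ b < tau (n + γ') := by
      intro n hn
      rw [Finset.mem_sdiff, hnd, hnd] at hn
      refine ⟨hn.1.2, ?_⟩
      by_contra hcon
      push Not at hcon
      refine hn.2 ⟨?_, hcon⟩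
      exact lt_of_lt_of_le hn.1.1 (htm.monotone (by linarith))
    refine sum_le_of_unique (hDD0 _ _) ?_ ?_
    · intro n hn
      exact edge h3s hL hγ' (key n hn).1 (key n hn).2
    · intro n hn m hm
      exact uniq h3s hγ' (key n hn).1 (key n hn).2 (key m hm).1 (key m hm).2
  have hA0 : 0 ≤ ∑ n ∈ nd γ' a b \ nd γ a b, F' n := Finset.sum_nonneg (fun n _ => hF'0 n)
  have hB0 : 0 ≤ ∑ n ∈ nd γ a b \ nd γ' a b, F' n := Finset.sum_nonneg (fun n _ => hF'0 n)
  have hdec : DD p γ' a b - DD p γ a b = (∑ n ∈ nd γ a b, (F' n - F n)) +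
      ((∑ n ∈ nd γ' a b \ nd γ a b, F' n) - ∑ n ∈ nd γ a b \ nd γ' a b, F' n) := by
    rw [e1, e2, Finset.sum_sub_distrib, ← hsub]
    ring
  rw [hdec]
  have t1 := abs_add_le (∑ n ∈ nd γ a b, (F' n - F n))
    ((∑ n ∈ nd γ' a b \ nd γ a b, F' n) - ∑ n ∈ nd γ a b \ nd γ' a b, F' n)
  have t2 : |∑ n ∈ nd γ a b, (F' n - F n)| ≤ ∑ n ∈ nd γ a b, |F' n - F n| := Finset.abs_sum_le_sum_abs _ _
  have t3 : |(∑ n ∈ nd γ' a b \ nd γ a b, F' n) - ∑ n ∈ nd γ a b \ nd γ' a b, F' n| ≤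
      DD p γ' (a - 2 * L) (a + 2 * L) + DD p γ' (b - 2 * L) (b + 2 * L) := by
    rw [abs_le]
    constructor <;> linarith [hDD0 (a - 2 * L) (a + 2 * L), hDD0 (b - 2 * L) (b + 2 * L)]
  linarith

/-- averaging over `N` points -/
lemma avg {g : ℝ → ℝ} (hper : Function.Periodic g 1) (hint : IntervalIntegrable g volume 0 1) {N : ℕ} (hN : 1 ≤ N)
    {γ B : ℝ} (hB : ∀ (j : ℕ) (x : ℝ), γ + j / N ≤ x → x ≤ γ + j / N + 1 / N → |g x - g (γ + j / N)| ≤ B) :
    |1 / (N : ℝ) * (∑ j ∈ Finset.range N, g (γ + j / N)) - ∫ x in (0 : ℝ)..1, g x| ≤ B := by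
  have hN0 : (0 : ℝ) < N := by exact_mod_cast hN
  have hii : ∀ u v : ℝ, IntervalIntegrable g volume u v := by
    intro u v
    have h0 : IntervalIntegrable g volume 0 (0 + 1) := by simpa using hint
    exact hper.intervalIntegrable one_pos.ne' h0 u v
  have e1 : ∫ x in (0 : ℝ)..1, g x = ∫ x in γ..(γ + 1), g x := by
    have := hper.intervalIntegral_add_eq 0 γ
    simpa using this
  have e2 : ∑ j ∈ Finset.range N, (∫ x in (γ + (j : ℕ) / N)..(γ + ((j + 1 : ℕ) : ℝ) / N), g x) =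
      ∫ x in γ..(γ + 1), g x := by
    have := intervalIntegral.sum_integral_adjacent_intervals (f := g) (μ := volume)
      (a := fun j : ℕ => γ + (j : ℝ) / N) (n := N) (fun k _ => hii _ _)
    rw [this]
    congr 1
    · simp
    · field_simp
  have e3 : 1 / (N : ℝ) * (∑ j ∈ Finset.range N, g (γ + j / N)) - ∫ x in (0 : ℝ)..1, g x =
      ∑ j ∈ Finset.range N, ∫ x in (γ + (j : ℕ) / N)..(γ + ((j + 1 : ℕ) : ℝ) / N), (g (γ + j / N) - g x) := by
    rw [e1, ← e2, Finset.mul_sum, ← Finset.sum_sub_distrib]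
    refine Finset.sum_congr rfl (fun j _ => ?_)
    rw [intervalIntegral.integral_sub intervalIntegrable_const (hii _ _), intervalIntegral.integral_const]
    have : (γ + ((j + 1 : ℕ) : ℝ) / N) - (γ + (j : ℕ) / N) = 1 / N := by
      push_cast; ring
    rw [this, smul_eq_mul]
  rw [e3]
  calc |∑ j ∈ Finset.range N, ∫ x in (γ + (j : ℕ) / N)..(γ + ((j + 1 : ℕ) : ℝ) / N), (g (γ + j / N) - g x)|
      ≤ ∑ j ∈ Finset.range N, |∫ x in (γ + (j : ℕ) / N)..(γ + ((j + 1 : ℕ) : ℝ) / N), (g (γ + j / N) - g x)| :=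
        Finset.abs_sum_le_sum_abs _ _
    _ ≤ ∑ j ∈ Finset.range N, B * (1 / N) := by
        refine Finset.sum_le_sum (fun j _ => ?_)
        have hle : γ + (j : ℕ) / N ≤ γ + ((j + 1 : ℕ) : ℝ) / N := by
          have : (γ + ((j + 1 : ℕ) : ℝ) / N) - (γ + (j : ℕ) / N) = 1 / N := by
            push_cast; ring
          have h2 : (0 : ℝ) < 1 / N := by positivity
          linarith
        have := intervalIntegral.norm_integral_le_of_norm_le_const (f := fun x => g (γ + j / N) - g x)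
          (a := γ + (j : ℕ) / N) (b := γ + ((j + 1 : ℕ) : ℝ) / N) (C := B) (fun x hx => by
            rw [Set.uIoc_of_le hle] at hx
            rw [Real.norm_eq_abs, abs_sub_comm]
            refine hB j x hx.1.le ?_
            have h2 := hx.2
            have : (γ + ((j + 1 : ℕ) : ℝ) / N) = γ + (j : ℕ) / N + 1 / N := by
              push_cast; ring
            linarith)
        rw [Real.norm_eq_abs] at this
        have h3 : |(γ + ((j + 1 : ℕ) : ℝ) / N) - (γ + (j : ℕ) / N)| = 1 / N := by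
          have : (γ + ((j + 1 : ℕ) : ℝ) / N) - (γ + (j : ℕ) / N) = 1 / N := by
            push_cast; ring
          rw [this]
          exact abs_of_pos (by positivity)
        rwa [h3] at this
    _ = B := by
        rw [Finset.sum_const, Finset.card_range, nsmul_eq_mul]
        field_simp

/-- the asymptotic facts -/
lemma large (p : ℝ) (hp : 0 < p) : ∃ T₁ : ℝ, 100 ≤ T₁ ∧ ∀ T : ℝ, T₁ ≤ T → 4 ≤ Real.log T ∧ 4 * Real.log T ≤ T ∧
    (4 * Real.log T + 1) * T ^ (-(p / 3)) ≤ T ^ (-(p / 4)) := by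
  have hlog : ∀ᶠ T : ℝ in atTop, 4 ≤ Real.log T := Real.tendsto_log_atTop.eventually_ge_atTop 4
  have hq : 0 < p / 12 := by positivity
  have hlo := (isLittleO_log_rpow_atTop hq).bound (show (0 : ℝ) < 1 / 5 by norm_num)
  have hlo1 := (isLittleO_log_rpow_atTop (one_pos)).bound (show (0 : ℝ) < 1 / 4 by norm_num)
  obtain ⟨T₁, hT₁⟩ := Filter.eventually_atTop.1 (((hlog.and hlo).and hlo1).and (Filter.eventually_ge_atTop (100 : ℝ)))
  refine ⟨max T₁ 100, le_max_right _ _, fun T hT => ?_⟩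
  obtain ⟨⟨⟨a1, a2⟩, a3⟩, a4⟩ := hT₁ T (le_trans (le_max_left _ _) hT)
  have hT0 : 0 < T := by linarith
  rw [Real.norm_of_nonneg (by linarith), Real.norm_of_nonneg (Real.rpow_nonneg hT0.le _)] at a2 a3
  rw [Real.rpow_one] at a3
  refine ⟨a1, by linarith, ?_⟩
  have h1 : 4 * Real.log T + 1 ≤ T ^ (p / 12) := by linarith
  calc (4 * Real.log T + 1) * T ^ (-(p / 3)) ≤ T ^ (p / 12) * T ^ (-(p / 3)) :=
        mul_le_mul_of_nonneg_right h1 (Real.rpow_nonneg hT0.le _)
    _ = T ^ (-(p / 4)) := by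
        rw [← Real.rpow_add hT0]
        congr 1
        ring

theorem mz_avn (h1 : StOscB) (h2 : StCmp) (h3 : StTau) (h4 : StCo) : Pool.Agent.W188.MZ.StAvN := by
  intro p hp
  obtain ⟨C₁, T₁, hC₁, H1⟩ := h1 p hp
  obtain ⟨C₂, T₂, hC₂, H2⟩ := h2 p hp
  obtain ⟨T₃, hT₃, H3⟩ := large p hp
  refine ⟨C₁ + 2 * C₂, max T₁ (max T₂ T₃), by positivity, ?_⟩
  intro T γ a b N hT hTa hab hb hN
  have hT1 : T₁ ≤ T := le_trans (le_max_left _ _) hT
  have hT2 : T₂ ≤ T := le_trans (le_trans (le_max_left _ _) (le_max_right _ _)) hT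
  have hT3 : T₃ ≤ T := le_trans (le_trans (le_max_right _ _) (le_max_right _ _)) hT
  obtain ⟨hL4, hLT, hLp⟩ := H3 T hT3
  set L := Real.log T with hLdef
  have hT100 : 100 ≤ T := le_trans hT₃ hT3
  have hT0 : 0 < T := by linarith
  obtain ⟨hco1, hco2⟩ := h4 (fun t => ZZ t ^ p) a b (ZZp_cont p hp) (by linarith) hab
  rw [← hco2]
  have hN0 : (0 : ℝ) < N := by exact_mod_cast hN
  have hN1 : 1 / (N : ℝ) ≤ 1 := by
    rw [div_le_one hN0]; exact_mod_cast hN
  refine avg (g := fun γ => DD p γ a b) (DD_per p a b) hco1 hN ?_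
  intro j x hx1 hx2
  have g1 := osc h3 (p := p) hL4 hab hx1 (by linarith)
  have g2 := H1 T (γ + j / N) x a b N hT1 hTa hab hb hN hx1 hx2
  have ga := (H2 T x (a - 2 * L) (a + 2 * L) hT2 (by linarith) (by linarith) (by linarith)).2
  have gb := (H2 T x (b - 2 * L) (b + 2 * L) hT2 (by linarith) (by linarith) (by linarith)).2
  rw [← hLdef] at g2 ga gb
  have ea1 : a - 2 * L - 2 * L = a - 4 * L := by ring
  have ea2 : a + 2 * L + 2 * L = a + 4 * L := by ring
  have ea3 : a + 2 * L - (a - 2 * L) + 1 = 4 * L + 1 := by ring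
  have eb1 : b - 2 * L - 2 * L = b - 4 * L := by ring
  have eb2 : b + 2 * L + 2 * L = b + 4 * L := by ring
  have eb3 : b + 2 * L - (b - 2 * L) + 1 = 4 * L + 1 := by ring
  rw [ea1, ea2, ea3] at ga
  rw [eb1, eb2, eb3] at gb
  unfold Err
  rw [← hLdef]
  set E := T ^ (-(p / 4)) with hE
  have hE0 : 0 < E := Real.rpow_pos_of_pos hT0 _
  set I := ∫ t in (a - 4 * L)..(b + 4 * L), ZZ t ^ p with hI
  set Ia := ∫ t in (a - 4 * L)..(a + 4 * L), ZZ t ^ p with hIa
  set Ib := ∫ t in (b - 4 * L)..(b + 4 * L), ZZ t ^ p with hIb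
  have hI0 : 0 ≤ I := int_nonneg p _ _ (by linarith)
  have hIa0 : 0 ≤ Ia := int_nonneg p _ _ (by linarith)
  have hIb0 : 0 ≤ Ib := int_nonneg p _ _ (by linarith)
  set Q := (N : ℝ) ^ (-(min 1 p)) with hQ
  have hQ0 : 0 ≤ Q := Real.rpow_nonneg hN0.le _
  have hba : E ≤ (b - a + 1) * E := by
    nlinarith
  have ha' : DD p x (a - 2 * L) (a + 2 * L) ≤ C₂ * (L * Ia + (b - a + 1) * E) := by
    refine ga.trans (mul_le_mul_of_nonneg_left ?_ hC₂.le)
    linarith
  have hb' : DD p x (b - 2 * L) (b + 2 * L) ≤ C₂ * (L * Ib + (b - a + 1) * E) := by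
    refine gb.trans (mul_le_mul_of_nonneg_left ?_ hC₂.le)
    linarith
  have hL0 : 0 ≤ L := by linarith
  have hW : 0 ≤ (b - a + 1) * E := mul_nonneg (by linarith) hE0.le
  have p1 : 0 ≤ C₂ * (L * (Q * I)) := by positivity
  have p2 : 0 ≤ C₁ * (L * Ia) := by positivity
  have p3 : 0 ≤ C₁ * (L * Ib) := by positivity
  have p4 : 0 ≤ C₂ * (L * Ia) := by positivity
  have p5 : 0 ≤ C₂ * (L * Ib) := by positivity
  show |DD p x a b - DD p (γ + j / N) a b| ≤ _
  refine g1.trans ?_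
  nlinarith [g2, ha', hb', p1, p2, p3, p4, p5]

end Pool.Agent.W148.MZ
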